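import Pool.Agent.TMX.Stmts2

/-!
# Squad TMX, row A2 (helper32)
-/

namespace Pool.Agent.TMX.H32

open Finset Pool.Agent.TMX
open Pool.Agent.Helper51_Max (I IsMax)
open Pool.Agent.Helper37_EM (var)

theorem min_pt (g : ℕ → ℝ) {a b : ℕ} (hab : a ≤ b) :
    ∃ c, a ≤ c ∧ c ≤ b ∧ ∀ i, a ≤ i → i ≤ b → g c ≤ g i := by
  obtain ⟨c, hc, hmin⟩ := Finset.exists_min_image (Icc a b) g ⟨a, by simp [hab]⟩
  rw [mem_Icc] at hc
  exact ⟨c, hc.1, hc.2, fun i h1 h2 => hmin i (mem_Icc.2 ⟨h1, h2⟩)⟩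

theorem a2 : A2 := by
  intro reach means varc N g M hM i₀ p₁ y p₂ h1 h2 h3 h4 h5 h0
  obtain ⟨-, r2, r3, -, -⟩ := reach N g M hM
  obtain ⟨m1, m2, -⟩ := means N g M hM
  obtain ⟨v1, -⟩ := varc N g
  have hN : (0 : ℝ) ≤ N := Nat.cast_nonneg N
  have gl : ∀ v, v ≤ N → g v ≤ M v := fun v hv => Pool.Agent.Helper37_EM.g_le hM hv
  have g0 : ∀ v, 0 ≤ g v := hM.nonneg
  -- the final step
  have fin : ∀ W V : ℝ, W ≤ var g 0 N → W ≤ ((N : ℝ) + 1) * (W - V) →
      ((N : ℝ) + 1) * V ≤ N * var g 0 N := by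
    intro W V hW hWV
    have : (N : ℝ) * W ≤ N * var g 0 N := mul_le_mul_of_nonneg_left hW hN
    nlinarith
  have hS := m2 p₁ p₂ (by omega) h3
  have hSy := m1 y (by omega)
  have hSN := m1 N le_rfl
  rcases le_total i₀ p₂ with hi | hi
  · have hv := v1 0 p₁ i₀ p₂ N (Nat.zero_le _) h4 hi h3 le_rfl
    apply fin _ _ hv
    rw [h0] at hv ⊢
    have e0 := gl 0 (Nat.zero_le _)
    have eN := gl N le_rfl
    have k1 : 0 ≤ ((N : ℝ) + 1) * (M 0 - g 0) := by
      apply mul_nonneg <;> linarith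
    have k2 : 0 ≤ ((N : ℝ) + 1) * (M N - g N) := by
      apply mul_nonneg <;> linarith
    have := g0 0
    have := g0 N
    nlinarith
  · obtain ⟨α, ha0, ha1, ha⟩ := min_pt g (Nat.zero_le p₁)
    obtain ⟨w, hw0, hw1, hw⟩ := min_pt g (show p₁ ≤ p₂ by omega)
    have hv := v1 α p₁ w p₂ i₀ ha1 hw0 hw1 hi h5
    apply fin _ _ hv
    rw [h0] at hv ⊢
    have hwy := hw y (by omega) (by omega)
    have hyM := gl y (by omega)
    have hu0 := g0 w
    have hp2 := g0 p₂
    rcases le_or_gt (g α) (g w) with hau | hau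
    · have k3 := r3 0 p₁ p₂ (g α) (Nat.zero_le _) (by omega) h3 (by
        intro i hi'
        rcases le_total i p₁ with h | h
        · exact ha i (Nat.zero_le _) h
        · exact hau.trans (hw i h hi'))
      have k4 : 0 ≤ ((N : ℝ) + 1) * (M y - g w) := by
        apply mul_nonneg <;> linarith
      nlinarith
    · have k3 := r2 0 p₁ (g α) (Nat.zero_le _) (by omega) (by
        intro i hi'
        exact ha i (Nat.zero_le _) hi')
      have k4 := r2 y p₂ (g w) (by omega) h3 (by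
        intro i hi'
        rcases le_total i p₁ with h | h
        · exact hau.le.trans (ha i (Nat.zero_le _) h)
        · exact hw i h hi')
      nlinarith

end Pool.Agent.TMX.H32
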